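import Pool.Agent.W5h9.LF.Defs
import Pool.Agent.W5h9.LF.Q.Desc

set_option autoImplicit false
set_option maxRecDepth 100000

/-!
# Certificate: the first states
-/

namespace Pool.Agent.W5h9.LF

def qT : List Nat := [
  0x62081f80,
  0x60005f84,
  0x64005f84,
  0x17f20be1f87e0f83e0f9885188200500ca4840013f11f208,
  0x580ca4c013f11f288,
  0x1b099c82c0672326091f90f9c87c833e720c,
  0x3,
  0x1f3907f28be417c3f0fc1f07c1f09048014c348481653f30fe41fca2f905f0fc3f07c1f07ce918906280810500ca4648233f31f30c,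
  0x1f3907f28be417c3f0fc1f07c1f411211a8c01068260b019c948890687e83e839f414,
  0x7ce41fca2f905f0fc3f07c1f07d264086b20021a0982fe93fd05f987f20fe517c82f87e1f83e0f83e758925028660a080a01a89c948498697e93e939f494,
  0x7,
  0xb,
  0xf,
  0x13,
  0x7ce41fca2f905f0fc3f07c1f07d264086b200222fa0ff30fe41fca2f905f0fc3f07c1f07d684948730c22004be82fcc3f907f28be417c3f0fc1f07c1f2a02b19c04488c1a0580d44e4a424c34bf49f524,
  0x17,
  0x1b,
  0x7ce41fca2f905f0fc3f07c1f07c241200530d43af987f20fe517c82f87e1f83e0f83e85148730c2200c8a4561b491184d241603493929314006fc67d233e719f28cfa4e33e928c,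
  0x1f,
  0x23,
  0x27,
  0x1f3907f28be417c3f0fc1f07c1f11c2a018a358cbe61fc83f945f20be1f87e0f83e0f9d63120c501022a19f987f20fe517c82f87e1f83e0f83ea598e428c4100abe938fe6f907f28be417c3f0fc1f07c1f3a9621990501021a0580d250464c4e12bf29f494,
  0x2b,
  0x2f,
  0xbf9c83f945f20be1f87e0f83e0f8482400a61ac85f28fe6f907f28be417c3f0fc1f07c1f5a5073148310402231f987f20fe517c82f87e1f83e0f83e758c483140408ebe71fcdf20fe517c82f87e1f83e0f83e752c43320a0204341301a4a0988ca89c257e53ea29f494,
  0x33,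
  0x37,
  0x3b,
  0x3e71fcdf20fe517c82f87e1f83e0f83e752c43320a020435f3907f28be417c3f0fc1f07c1f09048014c3590be928fe6f907f28be417c3f0fc1f07c1f324e8590a2184032f947f37c83f945f20be1f87e0f83e0fad28398a418820112498fcc3f907f28be417c3f0fc1f07c1f3ac62418a020475f48fe6f907f28be417c3f0fc1f07c1f5a4e830c452002120580d4524c46504e12bf29f514,
  0x3f,
  0xf9c7f37c83f945f20be1f87e0f83e0fa16c214c718440290cc46a23b0da48ac26a20b01a8a4a0908c94477e73ea39f49cfa0e7ce43ea49cfa8e43e941c,
  0x43,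
  0x47,
  0x4b,
  0x4f,
  0x53,
  0x57,
  0x5b,
  0x5f,
  0x63,
  0xf9c9f28be417c3f0fc1f07c1f180a24a026202be41fca2f905f0fc3f07c1f07ca920c2730041229f9c9f28be417c3f0fc1f07c1f394091202620280652324119f98,
  0x1f393e517c82f87e1f83e0f83e728142404c4117c83f945f20be1f87e0f83e0f994718885004541b09a482c06928232627095f94fa4a7d053e9414,
  0x67,
  0x1f393e517c82f87e1f83e0f83e538161488860d7c83f945f20be1f87e0f83e0f9165184c700845f4a0bf37c9f28be417c3f0fc1f07c1f42d46390a31040120580d25046484a23bf39f49c,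
  0x6b,
  0x6f,
  0x73,
  0x77,
  0x3e517c82f87e1f83e0f83e2199050102120580ce464c123f21f390,
  0x7b,
  0x3e517c82f87e1f83e0f83e119127018412f945f20be1f87e0f83e0f80a24a02620480652324119f98,
  0x3e517c82f87e1f83e0f83e219945010242f945f20be1f87e0f83e0f846451c061108662b49fa0e51fcdf27c5f20be1f87e0f83e0fa909290e6184401508d2507e83947f37c9f17c82f87e1f83e0f83ea3a462418a020455f3947f37c9f17c82f87e1f83e0f83ea49d06188a40044493f41c7f37c9f17c82f87e1f83e0f83ea424a4398611003413494139fa0e51fcdf27c5f20be1f87e0f83e0fa8a818524380c21506d27e728fe6f93e2f905f0fc3f07c1f07d482a48309cc0108be51fcdf27c5f20be1f87e0f83e0fa909290e6184400924a0fd071fcdf27c5f20be1f87e0f83e0fa8e3488a0418240d02d27e81fcdf27c5f20be1f87e0f83e0fa909290e6184400500d2504e4a4c484001bf19f40cf9467d0719f39467d0728cfa50728c,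
  0x7f,
  0x83,
  0x87,
  0x8b,
  0x8f,
  0x93,
  0x97,
  0x9b]

theorem qtop : (go qL 60 qX 4000 [] 2 4294967298 4294967298 0x61081f80 qT).isSome = true := by
  decide +kernel

end Pool.Agent.W5h9.LF
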