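import Pool.Agent.W5h9.LF.Q.Part0
import Pool.Agent.W5h9.LF.Q.Part1
import Pool.Agent.W5h9.LF.Q.Part2
import Pool.Agent.W5h9.LF.Q.Part3
import Pool.Agent.W5h9.LF.Q.Part4
import Pool.Agent.W5h9.LF.Q.Part5
import Pool.Agent.W5h9.LF.Q.Part6
import Pool.Agent.W5h9.LF.Q.Part7
import Pool.Agent.W5h9.LF.Q.Part8
import Pool.Agent.W5h9.LF.Q.Part9
import Pool.Agent.W5h9.LF.Q.Part10
import Pool.Agent.W5h9.LF.Q.Part11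
import Pool.Agent.W5h9.LF.Q.Top

set_option autoImplicit false
set_option maxRecDepth 100000

/-!
# Certificate: all parts
-/

namespace Pool.Agent.W5h9.LF

theorem qall : ∀ x ∈ qX, ∃ (c : Nat) (l : List Nat),
    (go qL 60 [] 4000 x.1 x.2.1 x.2.2.1 x.2.2.2 c l).isSome = true := by
  intro x hx
  simp only [qX, List.mem_cons, List.not_mem_nil, or_false] at hx
  rcases hx with rfl | rfl | rfl | rfl | rfl | rfl | rfl | rfl | rfl | rfl | rfl | rfl | rfl | rfl | rfl | rfl | rfl | rfl | rfl | rfl | rfl | rfl | rfl | rfl | rfl | rfl | rfl | rfl | rfl | rfl | rfl | rfl | rfl | rfl | rfl | rfl | rfl | rfl | rfl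
  · exact ⟨_, _, qC0⟩
  · exact ⟨_, _, qC1⟩
  · exact ⟨_, _, qC2⟩
  · exact ⟨_, _, qC3⟩
  · exact ⟨_, _, qC4⟩
  · exact ⟨_, _, qC5⟩
  · exact ⟨_, _, qC6⟩
  · exact ⟨_, _, qC7⟩
  · exact ⟨_, _, qC8⟩
  · exact ⟨_, _, qC9⟩
  · exact ⟨_, _, qC10⟩
  · exact ⟨_, _, qC11⟩
  · exact ⟨_, _, qC12⟩
  · exact ⟨_, _, qC13⟩
  · exact ⟨_, _, qC14⟩
  · exact ⟨_, _, qC15⟩
  · exact ⟨_, _, qC16⟩
  · exact ⟨_, _, qC17⟩
  · exact ⟨_, _, qC18⟩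
  · exact ⟨_, _, qC19⟩
  · exact ⟨_, _, qC20⟩
  · exact ⟨_, _, qC21⟩
  · exact ⟨_, _, qC22⟩
  · exact ⟨_, _, qC23⟩
  · exact ⟨_, _, qC24⟩
  · exact ⟨_, _, qC25⟩
  · exact ⟨_, _, qC26⟩
  · exact ⟨_, _, qC27⟩
  · exact ⟨_, _, qC28⟩
  · exact ⟨_, _, qC29⟩
  · exact ⟨_, _, qC30⟩
  · exact ⟨_, _, qC31⟩
  · exact ⟨_, _, qC32⟩
  · exact ⟨_, _, qC33⟩
  · exact ⟨_, _, qC34⟩
  · exact ⟨_, _, qC35⟩
  · exact ⟨_, _, qC36⟩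
  · exact ⟨_, _, qC37⟩
  · exact ⟨_, _, qC38⟩

end Pool.Agent.W5h9.LF
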